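import Pool.Agent.H37.DEN.Targets

/-!
# Board den_modules, row FDM: finite dimension
-/

set_option autoImplicit false

open MvPolynomial Filter
open Pool.Agent.H18.HIT Pool.Agent.H8.TD Pool.Agent.H37.DEN

namespace Pool.Agent.H11.DEN

/-- the finite set of the products of monomials and powers -/
noncomputable def gs (k : Type) [Field k] (P : K3 k) (J a : ℕ) : Set (K3 k) :=
  (fun p : (Fin 3 →₀ ℕ) × ℕ => ι (monomial p.1 (1 : k)) * P ^ p.2) ''
    (Set.Iic (Finsupp.equivFunOnFinite.symm fun _ => a) ×ˢ Set.Iio J)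

theorem gs_finite (k : Type) [Field k] (P : K3 k) (J a : ℕ) : (gs k P J a).Finite :=
  Set.Finite.image _ ((Set.finite_Iic _).prod (Set.finite_Iio _))

theorem mem_span_gs {k : Type} [Field k] (κ : IntermediateField k (K3 k)) (P : K3 k)
    (J a : ℕ) (q : Po 3 k) (i : ℕ) (hq : q.totalDegree ≤ a) (hi : i < J) :
    ι q * P ^ i ∈ Submodule.span κ (gs k P J a) := by
  have h1 : ι q * P ^ i = ∑ d ∈ q.support,
      (algebraMap k κ (coeff d q)) • (ι (monomial d (1 : k)) * P ^ i) := by
    have h2 : q = ∑ d ∈ q.support, C (coeff d q) * monomial d (1 : k) := by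
      conv_lhs => rw [q.as_sum]
      refine Finset.sum_congr rfl fun d _ => ?_
      rw [C_mul_monomial, mul_one]
    conv_lhs => rw [h2]
    unfold ι
    rw [map_sum, Finset.sum_mul]
    refine Finset.sum_congr rfl fun d _ => ?_
    rw [map_mul, Algebra.smul_def, mul_assoc]
    congr 1
  rw [h1]
  refine Submodule.sum_mem _ fun d hd => Submodule.smul_mem _ _ (Submodule.subset_span ?_)
  refine ⟨(d, i), ⟨?_, hi⟩, rfl⟩
  change d ≤ Finsupp.equivFunOnFinite.symm fun _ => a
  intro j
  have h3 := le_totalDegree hd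
  have h4 : d j ≤ d.sum fun _ e => e := by
    by_cases hj : j ∈ d.support
    · exact Finset.single_le_sum (f := fun j => d j) (fun _ _ => Nat.zero_le _) hj
    · rw [Finsupp.notMem_support_iff] at hj
      rw [hj]
      exact Nat.zero_le _
  exact h4.trans (h3.trans hq)

theorem pf_FDM : T_FDM := by
  intro k _ κ P J a
  have hfin : ∀ J, FiniteDimensional κ (Submodule.span κ (gs k P J a)) := fun J =>
    FiniteDimensional.span_of_finite κ (gs_finite k P J a)
  refine ⟨?_, ?_⟩
  · have h : Sp κ a ≤ Submodule.span κ (gs k P 1 a) := by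
      unfold Sp
      refine Submodule.span_le.mpr ?_
      rintro h ⟨q, hq, rfl⟩
      have h1 := mem_span_gs κ P 1 a q 0 hq one_pos
      rwa [pow_zero, mul_one] at h1
    have := hfin 1
    exact Submodule.finiteDimensional_of_le h
  · have h : Wl κ P J a ≤ Submodule.span κ (gs k P J a) := by
      unfold Wl
      refine Submodule.span_le.mpr ?_
      rintro h ⟨q, i, hq, hi, rfl⟩
      exact mem_span_gs κ P J a q i hq hi
    have := hfin J
    exact Submodule.finiteDimensional_of_le h

end Pool.Agent.H11.DEN
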