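import Pool.Agent.H37.DEN.Targets

/-!
# Board den_modules, row HSF: the Hilbert function of the generic surface
-/

set_option autoImplicit false

open MvPolynomial Filter
open Pool.Agent.H18.HIT Pool.Agent.H8.TD Pool.Agent.H37.DEN

namespace Pool.Agent.H11.DEN

theorem aeval_xx {k : Type} [Field k] (q : Po 3 k) :
    (aeval (xx k) : Po 3 k →ₐ[k] K3 k) q = ι q := by
  have h : (aeval (xx k) : Po 3 k →ₐ[k] K3 k) = IsScalarTower.toAlgHom k (Po 3 k) (K3 k) := by
    refine algHom_ext fun i => ?_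
    rw [aeval_X]
    rfl
  rw [h]
  rfl

theorem totalDegree_map_inj {R S : Type} [CommSemiring R] [CommSemiring S] (f : R →+* S)
    (hf : Function.Injective f) (g : MvPolynomial (Fin 3) R) :
    (map f g).totalDegree = g.totalDegree := by
  unfold totalDegree
  rw [support_map_of_injective g hf]

theorem hsf_gen (hRTD : T_RTD) {κ K : Type} [Field κ] [Field K] [Algebra κ K]
    (ev : MvPolynomial (Fin 3) κ →ₐ[κ] K) (b q : ℕ) (W : Submodule κ K)
    (hW : ∀ w ∈ W, ∃ x ∈ restrictTotalDegree (Fin 3) κ b, ev x = w)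
    (G : MvPolynomial (Fin 3) κ) (hG0 : G ≠ 0) (hGd : G.totalDegree ≤ q) (hevG : ev G = 0)
    (hqb : q ≤ b) : Module.finrank κ W + (b - q + 3).choose 3 ≤ (b + 3).choose 3 := by
  obtain ⟨hf1, hr1⟩ := hRTD 3 κ b
  obtain ⟨hf2, hr2⟩ := hRTD 3 κ (b - q)
  obtain ⟨L, hL⟩ : ∃ L : restrictTotalDegree (Fin 3) κ b →ₗ[κ] K,
    L = ev.toLinearMap.domRestrict (restrictTotalDegree (Fin 3) κ b) := ⟨_, rfl⟩
  have hLa : ∀ x, L x = ev x := fun x => by rw [hL]; rfl
  have h1 : W ≤ LinearMap.range L := by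
    intro w hw
    obtain ⟨x, hx, hxw⟩ := hW w hw
    exact ⟨⟨x, hx⟩, by rw [hLa]; exact hxw⟩
  have hmem : ∀ h : restrictTotalDegree (Fin 3) κ (b - q),
      G * (h : MvPolynomial (Fin 3) κ) ∈ restrictTotalDegree (Fin 3) κ b := by
    intro h
    rw [mem_restrictTotalDegree]
    have h2 := (mem_restrictTotalDegree _ _ _).mp h.2
    have h3 := totalDegree_mul G (h : MvPolynomial (Fin 3) κ)
    omega
  have hker : ∀ h : restrictTotalDegree (Fin 3) κ (b - q),
      (⟨G * (h : MvPolynomial (Fin 3) κ), hmem h⟩ : restrictTotalDegree (Fin 3) κ b) ∈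
        LinearMap.ker L := by
    intro h
    rw [LinearMap.mem_ker, hLa]
    change ev (G * (h : MvPolynomial (Fin 3) κ)) = 0
    rw [map_mul, hevG, zero_mul]
  let M : restrictTotalDegree (Fin 3) κ (b - q) →ₗ[κ] LinearMap.ker L :=
    { toFun := fun h => ⟨⟨G * (h : MvPolynomial (Fin 3) κ), hmem h⟩, hker h⟩
      map_add' := fun x y => by
        apply Subtype.ext
        apply Subtype.ext
        exact mul_add G _ _
      map_smul' := fun c x => by
        apply Subtype.ext
        apply Subtype.ext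
        exact mul_smul_comm c G _ }
  have hM : Function.Injective M := by
    intro x y hxy
    have h2 := congrArg (fun z : LinearMap.ker L => ((z : restrictTotalDegree (Fin 3) κ b) :
      MvPolynomial (Fin 3) κ)) hxy
    have h3 : G * (x : MvPolynomial (Fin 3) κ) = G * (y : MvPolynomial (Fin 3) κ) := h2
    exact Subtype.ext (mul_left_cancel₀ hG0 h3)
  have h2 := LinearMap.finrank_le_finrank_of_injective hM
  rw [hr2] at h2
  have h3 := LinearMap.finrank_range_add_finrank_ker L
  rw [hr1] at h3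
  have h4 := Submodule.finrank_mono h1
  omega

theorem pf_HSF (hRTD : T_RTD) : T_HSF := by
  intro k _ g b hg hgb
  obtain ⟨κ, hκ⟩ : ∃ κ, κ = IntermediateField.adjoin k {ι g} := ⟨_, rfl⟩
  have hgκ : ι g ∈ κ := hκ ▸ IntermediateField.mem_adjoin_simple_self k _
  rw [← hκ]
  obtain ⟨ev, hev⟩ : ∃ ev : MvPolynomial (Fin 3) κ →ₐ[κ] K3 k, ev = aeval (xx k) := ⟨_, rfl⟩
  have hev1 : ∀ q : Po 3 k, ev (map (algebraMap k κ) q) = ι q := fun q => by
    rw [hev, aeval_map_algebraMap, aeval_xx]
  have hinj : Function.Injective (algebraMap k κ) := (algebraMap k κ).injective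
  have hC : ev (C (⟨ι g, hgκ⟩ : κ)) = ι g := by
    rw [hev, aeval_C]
    rfl
  refine hsf_gen hRTD ev b g.totalDegree (Sp κ b) ?_
    (map (algebraMap k κ) g - C (⟨ι g, hgκ⟩ : κ)) ?_ ?_ ?_ hgb
  · intro w hw
    unfold Sp at hw
    induction hw using Submodule.span_induction with
    | mem x hx =>
      obtain ⟨q, hq, rfl⟩ := hx
      refine ⟨map (algebraMap k κ) q, ?_, hev1 q⟩
      rw [mem_restrictTotalDegree, totalDegree_map_inj _ hinj]
      exact hq
    | zero => exact ⟨0, Submodule.zero_mem _, map_zero ev⟩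
    | add x y _ _ hx hy =>
      obtain ⟨u, hu, hux⟩ := hx
      obtain ⟨v, hv, hvy⟩ := hy
      exact ⟨u + v, Submodule.add_mem _ hu hv, by rw [map_add, hux, hvy]⟩
    | smul c x _ hx =>
      obtain ⟨u, hu, hux⟩ := hx
      exact ⟨c • u, Submodule.smul_mem _ c hu, by rw [map_smul, hux]⟩
  · intro h0
    rw [sub_eq_zero] at h0
    have h2 := congrArg totalDegree h0
    rw [totalDegree_map_inj _ hinj, totalDegree_C] at h2
    omega
  · refine (totalDegree_sub _ _).trans ?_
    rw [totalDegree_map_inj _ hinj, totalDegree_C]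
    exact max_le le_rfl (Nat.zero_le _)
  · rw [map_sub, hev1, hC]
    exact sub_self _

end Pool.Agent.H11.DEN
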