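import Pool.Agent.H37.DEN.Targets

/-!
# Board den_modules, row LWP: lower bound for the dimension of the space of the `∑ q_i * P ^ i`
-/

set_option autoImplicit false

open MvPolynomial Filter
open Pool.Agent.H18.HIT Pool.Agent.H8.TD Pool.Agent.H37.DEN

namespace Pool.Agent.H11.DEN

theorem wp_le {k : Type} [Field k] (P : Po 3 k) (J a : ℕ) :
    WP P J a ≤ restrictTotalDegree (Fin 3) k (a + J * P.totalDegree) := by
  unfold WP
  refine Submodule.span_le.mpr ?_
  rintro h ⟨q, i, hq, hi, rfl⟩
  rw [SetLike.mem_coe, mem_restrictTotalDegree]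
  have h1 := totalDegree_mul q (P ^ i)
  have h2 := totalDegree_pow P i
  have h3 : i * P.totalDegree ≤ J * P.totalDegree := Nat.mul_le_mul_right _ hi
  omega

theorem wp_mono {k : Type} [Field k] (P : Po 3 k) (J a : ℕ) : WP P J a ≤ WP P (J + 1) a := by
  unfold WP
  refine Submodule.span_mono ?_
  rintro h ⟨q, i, hq, hi, rfl⟩
  exact ⟨q, i, hq, by omega, rfl⟩

theorem tdeg_pow {k : Type} [Field k] (P : Po 3 k) (hP : P ≠ 0) (n : ℕ) :
    (P ^ n).totalDegree = n * P.totalDegree := by
  induction n with
  | zero => rw [pow_zero, totalDegree_one, zero_mul]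
  | succ n ih => rw [pow_succ, totalDegree_mul_of_isDomain (pow_ne_zero _ hP) hP, ih]; ring

theorem pf_LWP (hRTD : T_RTD) : T_LWP := by
  intro k _ P J a hP hPa
  have hfin : ∀ J, Module.Finite k (WP P J a) := fun J => by
    have h1 := (hRTD 3 k (a + J * P.totalDegree)).1
    exact Submodule.finiteDimensional_of_le (wp_le P J a)
  refine ⟨hfin J, ?_⟩
  have hP0 : P ≠ 0 := by
    rintro rfl
    rw [totalDegree_zero] at hP
    omega
  induction J with
  | zero =>
    have h1 : restrictTotalDegree (Fin 3) k a ≤ WP P 0 a := by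
      intro q hq
      refine Submodule.subset_span ⟨q, 0, (mem_restrictTotalDegree _ _ _).mp hq, le_rfl, ?_⟩
      rw [pow_zero, mul_one]
    have h2 := hfin 0
    have h3 : Module.finrank k (restrictTotalDegree (Fin 3) k a) ≤
        Module.finrank k (WP P 0 a) := Submodule.finrank_mono h1
    rw [(hRTD 3 k a).2] at h3
    rw [zero_mul, add_zero]
    exact h3
  | succ J ih =>
    obtain ⟨hf1, hr1⟩ := hRTD 3 k a
    obtain ⟨hf2, hr2⟩ := hRTD 3 k (a - P.totalDegree)
    let μ : Po 3 k →ₗ[k] Po 3 k := LinearMap.mulRight k (P ^ (J + 1))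
    have hμ : Function.Injective μ := fun x y hxy => by
      have h1 : x * P ^ (J + 1) = y * P ^ (J + 1) := hxy
      exact mul_right_cancel₀ (pow_ne_zero _ hP0) h1
    obtain ⟨R, hR⟩ : ∃ R, R = (restrictTotalDegree (Fin 3) k a).map μ := ⟨_, rfl⟩
    have hRfin : Module.Finite k R := hR ▸ inferInstance
    have hRr : Module.finrank k R = (a + 3).choose 3 := by
      rw [hR, ← hr1]
      exact LinearEquiv.finrank_eq (Submodule.equivMapOfInjective μ hμ _).symm
    have h1 : WP P J a ⊔ R ≤ WP P (J + 1) a := by
      refine sup_le (wp_mono P J a) ?_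
      rw [hR, Submodule.map_le_iff_le_comap]
      intro q hq
      exact Submodule.subset_span ⟨q, J + 1, (mem_restrictTotalDegree _ _ _).mp hq, le_rfl, rfl⟩
    have h2 : WP P J a ⊓ R ≤ (restrictTotalDegree (Fin 3) k (a - P.totalDegree)).map μ := by
      rintro x ⟨hx1, hx2⟩
      rw [hR] at hx2
      obtain ⟨q, hq, rfl⟩ := hx2
      refine ⟨q, ?_, rfl⟩
      rw [SetLike.mem_coe, mem_restrictTotalDegree]
      by_cases hq0 : q = 0
      · rw [hq0, totalDegree_zero]
        exact Nat.zero_le _
      · have h3 := (mem_restrictTotalDegree _ _ _).mp (wp_le P J a hx1)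
        have h4 : (q * P ^ (J + 1)).totalDegree = q.totalDegree + (J + 1) * P.totalDegree := by
          rw [totalDegree_mul_of_isDomain hq0 (pow_ne_zero _ hP0), tdeg_pow P hP0]
        have h5 : (μ q).totalDegree = (q * P ^ (J + 1)).totalDegree := rfl
        rw [h5, h4] at h3
        have h6 : (J + 1) * P.totalDegree = J * P.totalDegree + P.totalDegree := by ring
        omega
    have hfJ := hfin J
    have hfJ1 := hfin (J + 1)
    have h3 : Module.finrank k (WP P J a ⊔ R : Submodule k (Po 3 k)) +
        Module.finrank k (WP P J a ⊓ R : Submodule k (Po 3 k)) =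
        Module.finrank k (WP P J a) + Module.finrank k R :=
      Submodule.finrank_sup_add_finrank_inf_eq (WP P J a) R
    have h4 : Module.finrank k (WP P J a ⊔ R : Submodule k (Po 3 k)) ≤
        Module.finrank k (WP P (J + 1) a) := Submodule.finrank_mono h1
    have h5 : Module.finrank k (WP P J a ⊓ R : Submodule k (Po 3 k)) ≤
        Module.finrank k ((restrictTotalDegree (Fin 3) k (a - P.totalDegree)).map μ) :=
      Submodule.finrank_mono h2
    have h6 : Module.finrank k ((restrictTotalDegree (Fin 3) k (a - P.totalDegree)).map μ) =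
        (a - P.totalDegree + 3).choose 3 := by
      rw [← hr2]
      exact LinearEquiv.finrank_eq (Submodule.equivMapOfInjective μ hμ _).symm
    rw [h6] at h5
    rw [hRr] at h3
    have h7 : (J + 1) * ((a + 3).choose 3 - (a - P.totalDegree + 3).choose 3) =
        J * ((a + 3).choose 3 - (a - P.totalDegree + 3).choose 3) +
          ((a + 3).choose 3 - (a - P.totalDegree + 3).choose 3) := by ring
    rw [h7]
    have h8 : (a - P.totalDegree + 3).choose 3 ≤ (a + 3).choose 3 :=
      Nat.choose_le_choose 3 (by omega)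
    omega

end Pool.Agent.H11.DEN
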